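import Pool.Agent.K7.H88.FI.Two

/-!
# Project FI: job CROSS
-/

set_option autoImplicit false

namespace Pool.Agent.K7.H88.FI

open Pool.Agent.K7.H15.Irr Pool.Agent.K7.H12.FI

theorem mu_le_sum {X V : Type} [Finite X] [Finite V] (F : OrientedGraph X) (G : OrientedGraph V)
    (E : (X → V) → Prop) (E' : V → (X → V) → Prop) (C : Finset V)
    (h : ∀ φ, Function.Injective φ → IsHom F G φ → E φ → ∃ c ∈ C, E' c φ) :
    mu F G E ≤ ∑ c ∈ C, mu F G (E' c) := by
  classical
  unfold mu
  rw [← Finset.sum_div]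
  refine div_le_div_of_nonneg_right ?_ (by positivity)
  have hsub : homs F G E ⊆ ⋃ c ∈ C, homs F G (E' c) := by
    intro φ hφ
    obtain ⟨c, hc, hcφ⟩ := h φ hφ.1 hφ.2.1 hφ.2.2
    exact Set.mem_iUnion₂.2 ⟨c, hc, hφ.1, hφ.2.1, hcφ⟩
  have h2 := Set.ncard_le_ncard hsub (Set.toFinite _)
  have h3 := h2.trans (Finset.set_ncard_biUnion_le _ _)
  exact_mod_cast h3

theorem sum_le_mu {X V : Type} [Finite X] [Finite V] (F : OrientedGraph X) (G : OrientedGraph V)
    (C : Finset V) :
    ∑ c ∈ C, mu F G (fun φ => c ∈ Set.range φ) ≤ Nat.card X * mu F G (fun _ => True) := by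
  classical
  haveI := Fintype.ofFinite X
  haveI := Fintype.ofFinite V
  unfold mu
  rw [← Finset.sum_div, ← mul_div_assoc]
  refine div_le_div_of_nonneg_right ?_ (by positivity)
  have h1 : ∀ c : V, (homs F G (fun φ => c ∈ Set.range φ)).ncard =
      ((homs F G (fun _ => True)).toFinset.bipartiteAbove (fun c φ => c ∈ Set.range φ) c).card := by
    intro c
    rw [Set.ncard_eq_toFinset_card']
    congr 1
    ext φ
    rw [Finset.mem_bipartiteAbove, Set.mem_toFinset, Set.mem_toFinset]
    exact ⟨fun hφ => ⟨⟨hφ.1, hφ.2.1, trivial⟩, hφ.2.2⟩, fun hφ => ⟨hφ.1.1, hφ.1.2.1, hφ.2⟩⟩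
  have h2 : ∑ c ∈ C, (homs F G (fun φ => c ∈ Set.range φ)).ncard ≤
      Nat.card X * (homs F G (fun _ => True)).ncard := by
    calc ∑ c ∈ C, (homs F G (fun φ => c ∈ Set.range φ)).ncard
        = ∑ c ∈ C, ((homs F G (fun _ => True)).toFinset.bipartiteAbove
            (fun c φ => c ∈ Set.range φ) c).card := Finset.sum_congr rfl fun c _ => h1 c
      _ = ∑ φ ∈ (homs F G (fun _ => True)).toFinset,
            (C.bipartiteBelow (fun c φ => c ∈ Set.range φ) φ).card :=
          Finset.sum_card_bipartiteAbove_eq_sum_card_bipartiteBelow _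
      _ ≤ ∑ _φ ∈ (homs F G (fun _ => True)).toFinset, Nat.card X := by
          refine Finset.sum_le_sum fun φ _ => ?_
          have h3 : C.bipartiteBelow (fun c φ => c ∈ Set.range φ) φ ⊆ Finset.univ.image φ := by
            intro c hc
            obtain ⟨x, hx⟩ := (Finset.mem_bipartiteBelow _).1 hc |>.2
            exact Finset.mem_image.2 ⟨x, Finset.mem_univ _, hx⟩
          refine (Finset.card_le_card h3).trans (Finset.card_image_le.trans ?_)
          rw [Finset.card_univ, Nat.card_eq_fintype_card]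
      _ = Nat.card X * (homs F G (fun _ => True)).ncard := by
          rw [Finset.sum_const, smul_eq_mul, Set.ncard_eq_toFinset_card', mul_comm]
  exact_mod_cast h2

theorem card_class {X : Type} {P : Par X} [Finite X] (g : Cls P)
    [DecidablePred fun v : Vt P => v.1 = g] [Fintype (Vt P)] :
    ((Finset.univ : Finset (Vt P)).filter (fun v => v.1 = g)).card =
      P.r g.1 * P.m + (P.b * P.R g.1 + P.m) := by
  classical
  have h1 : Nat.card ((Fin (P.r g.1) × Fin P.m) ⊕ ((Fin P.b × Fin (P.R g.1)) ⊕ Fin P.m)) =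
      P.r g.1 * P.m + (P.b * P.R g.1 + P.m) := by
    simp [Nat.card_eq_fintype_card]
  rw [← h1, ← Fintype.card_subtype, ← Nat.card_eq_fintype_card]
  symm
  refine Nat.card_congr (Equiv.ofBijective
    (fun y => (⟨⟨g, y⟩, rfl⟩ : {v : Vt P // v.1 = g})) ⟨?_, ?_⟩)
  · intro y y' hy
    have h2 : (⟨g, y⟩ : Vt P) = ⟨g, y'⟩ := congrArg Subtype.val hy
    simpa using h2
  · rintro ⟨⟨g', y⟩, hg⟩
    have hg' : g' = g := hg
    subst hg'
    exact ⟨y, rfl⟩

theorem cross (hLB0 : StLB0) (hSz : StSize) (hTwo : StTwo) : StCross := by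
  intro X _ F hF h3
  classical
  obtain ⟨c, hc, A1, h1⟩ := hLB0 X F hF h3
  obtain ⟨C, hC, A2, h2⟩ := hSz X F hF h3
  obtain ⟨A3, h3'⟩ := hTwo X F hF h3
  have hk : (0 : ℝ) < Nat.card X := by
    have : 0 < Nat.card X := by omega
    exact_mod_cast this
  refine ⟨A1 + A2 + A3 + 2 * xb X + 2, ?_⟩
  intro P h a B x hok hmin v v' hvv
  have e1 := h1 P h a B x (ok_mono hok (by omega))
  obtain ⟨hm, hn, hbB, -, -, ham, hRx, -, -, -, hmiss, -⟩ := h2 P h a B x (ok_mono hok (by omega))
  have e3 := h3' P h a B x (ok_mono hok (by omega))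
  haveI : Fintype (Vt P) := Fintype.ofFinite _
  haveI : Nonempty (Vt P) := (Nat.card_pos_iff.1 hn).1
  have hn' : (0 : ℝ) < Nat.card (Vt P) := by exact_mod_cast hn
  set G := gph F P h with hG
  set T : ℝ := mu F G (fun _ => True) with hT
  -- the class of `g`
  let cs : Cls P → Finset (Vt P) := fun g => Finset.univ.filter (fun v => v.1 = g)
  have hlow : ∀ g : Cls P, T ≤ ∑ u ∈ cs g, D F G u := by
    intro g
    refine mu_le_sum F G _ (fun u φ => u ∈ Set.range φ) (cs g) ?_
    intro φ hφ hhom _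
    have hf : IsHom F F (fun y => cl (φ y)) := by
      intro y z hyz
      obtain ⟨y', z', hyz', h4, h5⟩ := (hhom y z hyz).1
      have := h y' z' hyz'
      rw [h4, h5] at this
      exact this
    have h4 := hmin _ hf
    have h5 : Set.range (fun y => cl (φ y)) ⊆ Set.range P.ρ := by
      rintro _ ⟨y, rfl⟩
      exact (φ y).1.2
    have h6 := Set.eq_of_subset_of_ncard_le h5 h4 (Set.toFinite _)
    have h7 : g.1 ∈ Set.range (fun y => cl (φ y)) := by rw [h6]; exact g.2
    obtain ⟨y, hy⟩ := h7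
    exact ⟨φ y, Finset.mem_filter.2 ⟨Finset.mem_univ _, Subtype.ext hy⟩, y, rfl⟩
  have hup : ∀ g : Cls P, ∑ u ∈ cs g, D F G u ≤ Nat.card X * T := fun g => sum_le_mu F G (cs g)
  have hDpos : ∀ u, 0 < D F G u := fun u =>
    lt_of_lt_of_le (mul_pos hc (pow_pos (div_pos hk hn') 1)) (e1 u)
  have hTpos : 0 < T := by
    have h4 : 0 < ∑ u ∈ cs v.1, D F G u :=
      Finset.sum_pos (fun u _ => hDpos u) ⟨v, Finset.mem_filter.2 ⟨Finset.mem_univ _, rfl⟩⟩
    have h5 := h4.trans_le (hup v.1)
    exact pos_of_mul_pos_right h5 hk.le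
  -- `D` against the mean
  have hlo : ∀ u : Vt P, T ≤ 2 * (cs u.1).card * D F G u := by
    intro u
    refine (hlow u.1).trans ?_
    have : ∑ w ∈ cs u.1, D F G w ≤ ∑ _w ∈ cs u.1, 2 * D F G u := by
      refine Finset.sum_le_sum fun w hw => ?_
      have hw' : w.1 = u.1 := (Finset.mem_filter.1 hw).2
      exact e3 w u (congrArg Subtype.val hw')
    refine this.trans (le_of_eq ?_)
    rw [Finset.sum_const, nsmul_eq_mul]
    ring
  have hhi : ∀ u : Vt P, (cs u.1).card * D F G u ≤ 2 * (Nat.card X * T) := by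
    intro u
    have : ∑ _w ∈ cs u.1, D F G u ≤ ∑ w ∈ cs u.1, 2 * D F G w := by
      refine Finset.sum_le_sum fun w hw => ?_
      have hw' : w.1 = u.1 := (Finset.mem_filter.1 hw).2
      exact e3 u w (congrArg Subtype.val hw').symm
    rw [Finset.sum_const, nsmul_eq_mul, ← Finset.mul_sum] at this
    have h4 := hup u.1
    linarith
  -- the sizes of the classes
  have hsz1 : ∀ g : Cls P, x g.1 * a * P.m ≤ (cs g).card := by
    intro g
    rw [card_class g, hok.hr g]
    omega
  have hsz2 : ∀ g : Cls P, (cs g).card ≤ 2 * (x g.1 * a * P.m) := by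
    intro g
    rw [card_class g, hok.hr g]
    have hR := hRx g
    have ha := hok.ha
    have hx := (hok.hx g).1
    have hB := hok.hB
    have hb := hok.hb
    have hb1 : 1 ≤ P.b := by nlinarith
    have h4 : P.b * P.R g.1 ≤ P.m := by
      calc P.b * P.R g.1 ≤ P.b * (xb X * a) := Nat.mul_le_mul_left _ hR
        _ ≤ P.b * ((A1 + A2 + A3 + 2 * xb X + 2) * a * P.b) := by
            refine Nat.mul_le_mul_left _ ?_
            calc xb X * a ≤ (A1 + A2 + A3 + 2 * xb X + 2) * a * 1 := by
                  rw [mul_one]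
                  exact Nat.mul_le_mul_right _ (by omega)
              _ ≤ (A1 + A2 + A3 + 2 * xb X + 2) * a * P.b := Nat.mul_le_mul_left _ hb1
        _ ≤ P.b * B := Nat.mul_le_mul_left _ hB
        _ ≤ P.m := hbB
    have h5 : 2 * P.m ≤ x g.1 * a * P.m := by
      refine Nat.mul_le_mul_right _ ?_
      have : 2 ≤ a := by omega
      nlinarith
    omega
  -- the comparison
  have main : ∀ u w : Vt P, 16 * Nat.card X * x (cl u) ≤ x (cl w) → D F G w < D F G u := by
    intro u w huw
    have h4 := hlo u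
    have h5 := hhi w
    have h6 : 8 * Nat.card X * (cs u.1).card ≤ (cs w.1).card := by
      calc 8 * Nat.card X * (cs u.1).card ≤ 8 * Nat.card X * (2 * (x (cl u) * a * P.m)) :=
            Nat.mul_le_mul_left _ (hsz2 u.1)
        _ = (16 * Nat.card X * x (cl u)) * (a * P.m) := by ring
        _ ≤ x (cl w) * (a * P.m) := Nat.mul_le_mul_right _ huw
        _ = x (cl w) * a * P.m := by ring
        _ ≤ (cs w.1).card := hsz1 w.1
    have h6' : 8 * (Nat.card X : ℝ) * (cs u.1).card ≤ (cs w.1).card := by exact_mod_cast h6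
    have hu : (0 : ℝ) < (cs u.1).card := by
      have : 0 < (cs u.1).card := Finset.card_pos.2 ⟨u, Finset.mem_filter.2 ⟨Finset.mem_univ _, rfl⟩⟩
      exact_mod_cast this
    have h7 : 8 * (Nat.card X : ℝ) * (cs u.1).card * D F G w ≤ 2 * (Nat.card X * T) :=
      (mul_le_mul_of_nonneg_right h6' (hDpos w).le).trans h5
    have h8 : 4 * (cs u.1).card * D F G w ≤ T := by
      have : (2 * (Nat.card X : ℝ)) * (4 * (cs u.1).card * D F G w) ≤ (2 * (Nat.card X : ℝ)) * T := by
        linarith
      exact le_of_mul_le_mul_left this (mul_pos two_pos hk)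
    have h9 : (2 * ((cs u.1).card : ℝ)) * (2 * D F G w) ≤ (2 * ((cs u.1).card : ℝ)) * D F G u := by
      linarith
    have h10 := le_of_mul_le_mul_left h9 (mul_pos two_pos hu)
    have := hDpos w
    linarith
  have hne : v.1 ≠ v'.1 := fun he => hvv (congrArg Subtype.val he)
  rcases hok.ratio v.1 v'.1 hne with h4 | h4
  · exact (main v v' h4).ne'
  · exact (main v' v h4).ne

end Pool.Agent.K7.H88.FI
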