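import Pool.Agent.K7.H12.FI.Conc

/-!
# Project FI: job TWO
-/

set_option autoImplicit false

namespace Pool.Agent.K7.H88.FI

open Pool.Agent.K7.H15.Irr Pool.Agent.K7.H12.FI

theorem over_gph {X : Type} (F : OrientedGraph X) (P : Par X) (h : IsHom F F P.ρ) :
    Over (img F P.ρ h) cl (gph F P h) := fun _ _ hab => hab.1

theorem adj_of_nb {X : Type} {F : OrientedGraph X} {P : Par X} {h : IsHom F F P.ρ} {v u : Vt P}
    (hu : u ∈ nb (gph F P h) v) : (img F P.ρ h).underlying.Adj (cl v) (cl u) := by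
  rcases hu with hu | hu
  · exact Or.inl hu.1
  · exact Or.inr hu.1

theorem ok_mono {X : Type} {F : OrientedGraph X} {P : Par X} {h : IsHom F F P.ρ} {A A' a B : ℕ}
    {x : X → ℕ} (ho : Ok F P h A a B x) (hA : A' ≤ A) : Ok F P h A' a B x where
  hx := ho.hx
  hr := ho.hr
  ratio := ho.ratio
  Rup := ho.Rup
  Rex := ho.Rex
  blk_lt := ho.blk_lt
  blk_mono := ho.blk_mono
  blk_card := ho.blk_card
  even := ho.even
  ha := hA.trans ho.ha
  hb := (Nat.mul_le_mul_right _ hA).trans ho.hb
  hB := (Nat.mul_le_mul_right _ (Nat.mul_le_mul_right _ hA)).trans ho.hB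

theorem two (hLB0 : StLB0) (hD : StDiff) (hS : StSplit) (hSz : StSize) : StTwo := by
  intro X _ F hF h3
  obtain ⟨c, hc, A1, h1⟩ := hLB0 X F hF h3
  obtain ⟨C, hC, A2, h2⟩ := hSz X F hF h3
  have hk : (0 : ℝ) < Nat.card X := by
    have : 0 < Nat.card X := by omega
    exact_mod_cast this
  obtain ⟨A3, hA3⟩ := exists_nat_ge (2 * C * Nat.card X / c)
  refine ⟨A1 + A2 + A3 + 1, ?_⟩
  intro P h a B x hok v v' hcl
  have e1 := h1 P h a B x (ok_mono hok (by omega))
  obtain ⟨hm, hn, hbB, -, -, ham, -, -, -, -, hmiss, -⟩ := h2 P h a B x (ok_mono hok (by omega))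
  have hn' : (0 : ℝ) < Nat.card (Vt P) := by exact_mod_cast hn
  haveI : Nonempty (Vt P) := (Nat.card_pos_iff.1 hn).1
  by_cases hvv : v = v'
  · subst hvv
    have := e1 v
    have h0 : 0 ≤ D F (gph F P h) v := by unfold D mu; positivity
    linarith
  have d1 := hD X (Vt P) F (img F P.ρ h) cl (gph F P h) (over_gph F P h) v v' hvv hcl
  obtain ⟨s1, -, s3⟩ := hS X (Vt P) F (img F P.ρ h) cl (gph F P h) v (E1 v v')
  have s3' := s3 (fun φ hφ => hφ.1) (nb (gph F P h) v') (nb (gph F P h) v' ∪ nb (gph F P h) v)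
    Set.subset_union_left
  have s1' := s1 (nb (gph F P h) v) (nb (gph F P h) v' ∪ nb (gph F P h) v) Set.subset_union_right
  have hsz := hmiss v'
  have hle : (((nb (gph F P h) v' ∪ nb (gph F P h) v) \ nb (gph F P h) v' : Set (Vt P)).ncard : ℝ) ≤
      C * (P.m + a * B) := by
    refine le_trans ?_ hsz
    have := Set.ncard_le_ncard (s := ((nb (gph F P h) v' ∪ nb (gph F P h) v) \ nb (gph F P h) v'))
      (t := ({u | (img F P.ρ h).underlying.Adj (cl v') (cl u)} \ nb (gph F P h) v')) (by
        rintro u ⟨hu | hu, hu'⟩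
        · exact absurd hu hu'
        · refine ⟨?_, hu'⟩
          have := adj_of_nb hu
          rw [hcl] at this
          exact this) (Set.toFinite _)
    exact_mod_cast this
  -- the error is small
  have herr : C * (P.m + a * B) * err X (Vt P) 2 ≤ c * err X (Vt P) 1 := by
    unfold err
    have hfac : C * (P.m + a * B) * ((Nat.card X : ℝ) / Nat.card (Vt P)) ≤ c := by
      have hb1 : (a : ℝ) ≤ P.b := by
        have hb := hok.hb
        have : a ≤ P.b := by
          have ha := hok.ha
          nlinarith [hb, ha, Nat.zero_le (A1 + A2 + A3)]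
        exact_mod_cast this
      have hbm : (P.b : ℝ) * B ≤ P.m := by exact_mod_cast hbB
      have hB0 : (0 : ℝ) ≤ B := by positivity
      have h5 : ((P.m : ℝ) + a * B) ≤ 2 * P.m := by nlinarith
      have h6 : ((a : ℝ) * P.m) ≤ Nat.card (Vt P) := by
        have := ham
        push_cast at this
        exact this
      have ha3 : (A3 : ℝ) ≤ a := by
        have := hok.ha
        have h7 : A3 ≤ a := by omega
        exact_mod_cast h7
      have h8 : 2 * C * Nat.card X ≤ c * a := by
        have := hA3.trans ha3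
        rw [div_le_iff₀ hc] at this
        linarith
      rw [← mul_div_assoc, div_le_iff₀ hn']
      have hm' : (0 : ℝ) < P.m := by exact_mod_cast hm
      calc C * (P.m + a * B) * Nat.card X ≤ C * (2 * P.m) * Nat.card X := by
            gcongr
        _ = (2 * C * Nat.card X) * P.m := by ring
        _ ≤ (c * a) * P.m := by gcongr
        _ = c * (a * P.m) := by ring
        _ ≤ c * Nat.card (Vt P) := by gcongr
    calc C * (P.m + a * B) * ((Nat.card X : ℝ) / Nat.card (Vt P)) ^ 2
        = (C * (P.m + a * B) * ((Nat.card X : ℝ) / Nat.card (Vt P))) *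
          ((Nat.card X : ℝ) / Nat.card (Vt P)) := by ring
      _ ≤ c * ((Nat.card X : ℝ) / Nat.card (Vt P)) := by gcongr
      _ = c * ((Nat.card X : ℝ) / Nat.card (Vt P)) ^ 1 := by ring
  have hmul : (((nb (gph F P h) v' ∪ nb (gph F P h) v) \ nb (gph F P h) v' : Set (Vt P)).ncard : ℝ) *
      err X (Vt P) 2 ≤ C * (P.m + a * B) * err X (Vt P) 2 := by
    refine mul_le_mul_of_nonneg_right hle ?_
    unfold err
    positivity
  have e2 := e1 v'
  linarith

end Pool.Agent.K7.H88.FI
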